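import Pool.Agent.W996.MW.Stm

/-!
Project MW (helper996): every vector has overlap of order `1 / log d` with a subset state.
-/

namespace Pool.Agent.W314.MW

open Finset Pool.Agent.W996.MW

/-- the constant -/
noncomputable def aa (d : ℕ) : ℝ := ∑ j ∈ range d, (Real.sqrt ((j : ℝ) + 1) - Real.sqrt j) ^ 2

lemma aa_nonneg (d : ℕ) : 0 ≤ aa d := sum_nonneg fun _ _ => sq_nonneg _

lemma step_le (j : ℕ) : (Real.sqrt (((j + 1 : ℕ) : ℝ) + 1) - Real.sqrt ((j + 1 : ℕ) : ℝ)) ^ 2 ≤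
    1 / 4 * ((j : ℝ) + 1)⁻¹ := by
  push_cast
  have h1 : (0 : ℝ) < (j : ℝ) + 1 := by positivity
  have h2 : 0 < Real.sqrt ((j : ℝ) + 1) := Real.sqrt_pos.2 h1
  have h3 : Real.sqrt ((j : ℝ) + 1) ^ 2 = (j : ℝ) + 1 := Real.sq_sqrt h1.le
  have h4 : Real.sqrt ((j : ℝ) + 1 + 1) ^ 2 = (j : ℝ) + 1 + 1 := Real.sq_sqrt (by linarith)
  have h5 : Real.sqrt ((j : ℝ) + 1) ≤ Real.sqrt ((j : ℝ) + 1 + 1) := Real.sqrt_le_sqrt (by linarith)
  set a := Real.sqrt ((j : ℝ) + 1)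
  set b := Real.sqrt ((j : ℝ) + 1 + 1)
  rw [← h3]
  have h6 : (b - a) * (b + a) = 1 := by nlinarith
  have h7 : (b - a) * (2 * a) ≤ 1 := by
    have : 0 ≤ b - a := by linarith
    nlinarith
  have h8 : 0 ≤ (b - a) * (2 * a) := by
    have : 0 ≤ b - a := by linarith
    positivity
  have h9 : ((b - a) * (2 * a)) ^ 2 ≤ 1 := by nlinarith
  have h10 : (b - a) ^ 2 = ((b - a) * (2 * a)) ^ 2 * (1 / 4 * (a ^ 2)⁻¹) := by
    field_simp
    ring
  rw [h10]
  have h11 : 0 ≤ 1 / 4 * (a ^ 2)⁻¹ := by positivity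
  nlinarith

lemma aa_le (d : ℕ) (hd : 1 ≤ d) : 4 * aa d ≤ 5 + Real.log d := by
  obtain ⟨m, rfl⟩ : ∃ m, d = m + 1 := ⟨d - 1, by omega⟩
  have h1 : aa (m + 1) ≤ 1 + 1 / 4 * (harmonic m : ℝ) := by
    unfold aa
    rw [sum_range_succ']
    have h2 : (Real.sqrt (((0 : ℕ) : ℝ) + 1) - Real.sqrt ((0 : ℕ) : ℝ)) ^ 2 = 1 := by simp
    rw [h2, add_comm]
    have h3 : (harmonic m : ℝ) = ∑ j ∈ range m, ((j : ℝ) + 1)⁻¹ := by
      unfold harmonic
      push_cast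
      rfl
    rw [h3, mul_sum]
    have := sum_le_sum fun j (_ : j ∈ range m) => step_le j
    linarith
  have h4 : (harmonic m : ℝ) ≤ 1 + Real.log m := harmonic_le_one_add_log m
  have h5 : Real.log (m : ℝ) ≤ Real.log ((m + 1 : ℕ) : ℝ) := by
    rcases Nat.eq_zero_or_pos m with rfl | hm
    · simp
    · apply Real.log_le_log (by exact_mod_cast hm)
      push_cast
      linarith
  linarith

/-- Abel summation -/
lemma abel_le (q D : ℕ → ℝ) (hq : Antitone q) (d : ℕ) (hD0 : D 0 = 0)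
    (hD : ∀ k ≤ d, 0 ≤ D k) :
    ∀ n ≤ d, q n * D n ≤ ∑ k ∈ range n, q k * (D (k + 1) - D k) := by
  intro n
  induction n with
  | zero => intro _; simp [hD0]
  | succ n ih =>
    intro hn
    rw [sum_range_succ]
    have h1 := ih (by omega)
    have h2 : q (n + 1) * D (n + 1) ≤ q n * D (n + 1) :=
      mul_le_mul_of_nonneg_right (hq (Nat.le_succ n)) (hD _ hn)
    linarith

lemma seq_lemma (q : ℕ → ℝ) (hq : Antitone q) (h0 : ∀ k, 0 ≤ q k) (d : ℕ) (hd : 1 ≤ d) :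
    ∃ k, 1 ≤ k ∧ k ≤ d ∧
      (k : ℝ) * ∑ j ∈ range d, q j ^ 2 ≤ aa d * (∑ j ∈ range k, q j) ^ 2 := by
  obtain ⟨k0, hk0, hmax⟩ := Finset.exists_max_image (Finset.Icc 1 d)
    (fun k => (∑ j ∈ range k, q j) / Real.sqrt k) ⟨1, by simp [hd]⟩
  rw [Finset.mem_Icc] at hk0
  refine ⟨k0, hk0.1, hk0.2, ?_⟩
  have hk0' : (0 : ℝ) < k0 := by exact_mod_cast hk0.1
  have hsk : 0 < Real.sqrt (k0 : ℝ) := Real.sqrt_pos.2 hk0'
  set M : ℝ := (∑ j ∈ range k0, q j) / Real.sqrt k0 with hM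
  have hMk : M ^ 2 * k0 = (∑ j ∈ range k0, q j) ^ 2 := by
    rw [hM, div_pow, Real.sq_sqrt hk0'.le]
    field_simp
  have hM0 : 0 ≤ M := div_nonneg (sum_nonneg fun j _ => h0 j) hsk.le
  have hP : ∀ k ≤ d, 0 ≤ M * Real.sqrt k - ∑ j ∈ range k, q j := by
    intro k hk
    rcases Nat.eq_zero_or_pos k with rfl | hk1
    · simp
    · have h1 := hmax k (Finset.mem_Icc.2 ⟨hk1, hk⟩)
      rw [div_le_iff₀ (Real.sqrt_pos.2 (by exact_mod_cast hk1))] at h1
      linarith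
  have hab := abel_le q (fun k => M * Real.sqrt k - ∑ j ∈ range k, q j) hq d (by simp) hP d le_rfl
  have h1 : 0 ≤ ∑ k ∈ range d, q k * (M * Real.sqrt ((k + 1 : ℕ) : ℝ) - ∑ j ∈ range (k + 1), q j -
      (M * Real.sqrt (k : ℝ) - ∑ j ∈ range k, q j)) :=
    le_trans (mul_nonneg (h0 d) (hP d le_rfl)) hab
  have h2 : ∑ k ∈ range d, q k * (M * Real.sqrt ((k + 1 : ℕ) : ℝ) - ∑ j ∈ range (k + 1), q j -
      (M * Real.sqrt (k : ℝ) - ∑ j ∈ range k, q j)) =
      M * ∑ k ∈ range d, q k * (Real.sqrt ((k : ℝ) + 1) - Real.sqrt k) - ∑ k ∈ range d, q k ^ 2 := by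
    rw [mul_sum, ← sum_sub_distrib]
    refine sum_congr rfl fun k _ => ?_
    rw [sum_range_succ]
    push_cast
    ring
  rw [h2] at h1
  set N : ℝ := ∑ k ∈ range d, q k ^ 2 with hN
  set T : ℝ := ∑ k ∈ range d, q k * (Real.sqrt ((k : ℝ) + 1) - Real.sqrt k) with hT
  have hN0 : 0 ≤ N := sum_nonneg fun _ _ => sq_nonneg _
  have hCS : T ^ 2 ≤ N * aa d := by
    rw [hT, hN]
    unfold aa
    exact Finset.sum_mul_sq_le_sq_mul_sq _ _ _
  rw [← hMk]
  have ha := aa_nonneg d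
  rcases hN0.eq_or_lt with h | h
  · rw [← h]
    have : 0 ≤ aa d * (M ^ 2 * k0) := by positivity
    linarith
  · have h3 : N ^ 2 ≤ M ^ 2 * T ^ 2 := by
      have h4 : N ≤ M * T := by linarith
      calc N ^ 2 ≤ (M * T) ^ 2 := pow_le_pow_left₀ hN0 h4 2
        _ = M ^ 2 * T ^ 2 := by ring
    have h4 : N * N ≤ (M ^ 2 * aa d) * N := by
      calc N * N = N ^ 2 := by ring
        _ ≤ M ^ 2 * T ^ 2 := h3
        _ ≤ M ^ 2 * (N * aa d) := mul_le_mul_of_nonneg_left hCS (sq_nonneg M)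
        _ = (M ^ 2 * aa d) * N := by ring
    have h5 : N ≤ M ^ 2 * aa d := le_of_mul_le_mul_right h4 h
    calc (k0 : ℝ) * N ≤ k0 * (M ^ 2 * aa d) := mul_le_mul_of_nonneg_left h5 hk0'.le
      _ = aa d * (M ^ 2 * k0) := by ring

lemma real_lemma {ι : Type} [Fintype ι] [DecidableEq ι] [Nonempty ι] (p : ι → ℝ)
    (hp : ∀ i, 0 ≤ p i) : ∃ S : Finset ι, S.Nonempty ∧
      (S.card : ℝ) * ∑ i, p i ^ 2 ≤ aa (Fintype.card ι) * (∑ i ∈ S, p i) ^ 2 := by
  classical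
  obtain ⟨d, hd⟩ : ∃ d, d = Fintype.card ι := ⟨_, rfl⟩
  have hd1 : 1 ≤ d := by rw [hd]; exact Fintype.card_pos
  have e₀ : Fin d ≃ ι := (Fintype.equivFinOfCardEq hd.symm).symm
  let σ : Equiv.Perm (Fin d) := Tuple.sort fun i => -p (e₀ i)
  have hσ : Monotone ((fun i => -p (e₀ i)) ∘ σ) := Tuple.monotone_sort _
  let e : Fin d ≃ ι := σ.trans e₀
  have he : ∀ a b : Fin d, a ≤ b → p (e b) ≤ p (e a) := by
    intro a b hab
    have := hσ hab
    simp only [Function.comp] at this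
    change p (e₀ (σ b)) ≤ p (e₀ (σ a))
    linarith
  let q : ℕ → ℝ := fun k => if h : k < d then p (e ⟨k, h⟩) else 0
  have hq0 : ∀ k, 0 ≤ q k := by
    intro k
    simp only [q]
    split_ifs
    · exact hp _
    · exact le_rfl
  have hq : Antitone q := by
    intro a b hab
    by_cases hb : b < d
    · have ha : a < d := lt_of_le_of_lt hab hb
      simp only [q, dif_pos hb, dif_pos ha]
      exact he _ _ hab
    · have : q b = 0 := by simp only [q, dif_neg hb]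
      rw [this]
      exact hq0 a
  obtain ⟨k, hk1, hkd, hk⟩ := seq_lemma q hq hq0 d hd1
  have h1 : ∑ j ∈ range d, q j ^ 2 = ∑ i, p i ^ 2 := by
    rw [Finset.sum_range, ← Equiv.sum_comp e]
    refine sum_congr rfl fun i _ => ?_
    simp only [q, dif_pos i.2]
  let S : Finset ι := (univ : Finset (Fin k)).map ((Fin.castLEEmb hkd).trans e.toEmbedding)
  have h2 : ∑ i ∈ S, p i = ∑ j ∈ range k, q j := by
    rw [Finset.sum_range]
    simp only [S, Finset.sum_map]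
    refine sum_congr rfl fun i _ => ?_
    have hi : (i : ℕ) < d := lt_of_lt_of_le i.2 hkd
    simp only [q, dif_pos hi]
    rfl
  have h3 : S.card = k := by simp [S]
  refine ⟨S, ?_, ?_⟩
  · rw [← Finset.card_pos, h3]
    omega
  · rw [h3, h2, ← hd, ← h1]
    exact hk

lemma key {ι : Type} [Fintype ι] [DecidableEq ι] [Nonempty ι] (ψ : ι → ℂ) (r : ι → ℝ)
    (h1 : normSq ψ ≤ 4 * ∑ i, (max (r i) 0) ^ 2) (h2 : ∀ S : Finset ι, ∑ i ∈ S, r i ≤ ‖∑ i ∈ S, ψ i‖) :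
    ∃ S : Finset ι, S.Nonempty ∧
      (S.card : ℝ) * normSq ψ ≤ (5 + Real.log (Fintype.card ι)) * ‖∑ i ∈ S, ψ i‖ ^ 2 := by
  classical
  have hcard : 1 ≤ Fintype.card ι := Fintype.card_pos
  have hlog : 0 ≤ Real.log (Fintype.card ι : ℝ) := Real.log_nonneg (by exact_mod_cast hcard)
  have haa := aa_le (Fintype.card ι) hcard
  have hn0 : 0 ≤ normSq ψ := sum_nonneg fun _ _ => sq_nonneg _
  obtain ⟨S, hS, hSp⟩ := real_lemma (fun i => max (r i) 0) (fun i => le_max_right _ _)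
  set Q : ℝ := ∑ i, (max (r i) 0) ^ 2 with hQ
  have hQ0 : 0 ≤ Q := sum_nonneg fun _ _ => sq_nonneg _
  set P : ℝ := ∑ i ∈ S, max (r i) 0 with hP
  have hP0 : 0 ≤ P := sum_nonneg fun _ _ => le_max_right _ _
  have hScard : (0 : ℝ) < S.card := by exact_mod_cast hS.card_pos
  rcases hP0.eq_or_lt with h | h
  · -- everything vanishes
    rw [← h] at hSp
    have hQz : Q ≤ 0 := by
      have : (S.card : ℝ) * Q ≤ S.card * 0 := by
        rw [mul_zero]
        simpa using hSp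
      exact le_of_mul_le_mul_left this hScard
    have hz : normSq ψ = 0 := by linarith
    refine ⟨S, hS, ?_⟩
    rw [hz, mul_zero]
    positivity
  · set S' : Finset ι := S.filter fun i => 0 < r i with hS'
    have hsum : ∑ i ∈ S', r i = P := by
      rw [hP, hS', Finset.sum_filter]
      refine sum_congr rfl fun i _ => ?_
      by_cases hi : 0 < r i
      · rw [if_pos hi, max_eq_left hi.le]
      · rw [if_neg hi, max_eq_right (not_lt.1 hi)]
    have hne : S'.Nonempty := by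
      rw [Finset.nonempty_iff_ne_empty]
      intro hemp
      rw [hemp, Finset.sum_empty] at hsum
      linarith
    have hle : (S'.card : ℝ) ≤ S.card := by
      exact_mod_cast Finset.card_le_card (Finset.filter_subset _ _)
    refine ⟨S', hne, ?_⟩
    have h3 : P ^ 2 ≤ ‖∑ i ∈ S', ψ i‖ ^ 2 := by
      apply pow_le_pow_left₀ hP0
      rw [← hsum]
      exact h2 S'
    calc (S'.card : ℝ) * normSq ψ ≤ S.card * (4 * Q) :=
          mul_le_mul hle h1 hn0 hScard.le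
      _ = 4 * (S.card * Q) := by ring
      _ ≤ 4 * (aa (Fintype.card ι) * P ^ 2) := by linarith
      _ = (4 * aa (Fintype.card ι)) * P ^ 2 := by ring
      _ ≤ (5 + Real.log (Fintype.card ι)) * P ^ 2 :=
          mul_le_mul_of_nonneg_right haa (sq_nonneg _)
      _ ≤ _ := mul_le_mul_of_nonneg_left h3 (by linarith)

lemma max_sq (a b : ℝ) :
    a ^ 2 + b ^ 2 = (max a 0) ^ 2 + (max (-a) 0) ^ 2 + (max b 0) ^ 2 + (max (-b) 0) ^ 2 := by
  have h : ∀ c : ℝ, c ^ 2 = (max c 0) ^ 2 + (max (-c) 0) ^ 2 := by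
    intro c
    rcases le_total 0 c with hc | hc
    · rw [max_eq_left hc, max_eq_right (by linarith : -c ≤ 0)]
      ring
    · rw [max_eq_right hc, max_eq_left (by linarith : 0 ≤ -c)]
      ring
  rw [h a, h b]
  ring

theorem main : S_LB := by
  intro ι _ _ _ ψ
  have hsum : normSq ψ = ∑ i, (max ((ψ i).re) 0) ^ 2 + ∑ i, (max (-(ψ i).re) 0) ^ 2 +
      ∑ i, (max ((ψ i).im) 0) ^ 2 + ∑ i, (max (-(ψ i).im) 0) ^ 2 := by
    unfold normSq
    rw [← sum_add_distrib, ← sum_add_distrib, ← sum_add_distrib]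
    refine sum_congr rfl fun i _ => ?_
    rw [← max_sq, Complex.sq_norm, Complex.normSq_apply]
    ring
  have b1 : ∀ S : Finset ι, ∑ i ∈ S, (ψ i).re ≤ ‖∑ i ∈ S, ψ i‖ := fun S => by
    rw [← Complex.re_sum]
    exact Complex.re_le_norm _
  have b2 : ∀ S : Finset ι, ∑ i ∈ S, -(ψ i).re ≤ ‖∑ i ∈ S, ψ i‖ := fun S => by
    rw [sum_neg_distrib, ← Complex.re_sum]
    exact (neg_le_abs _).trans (Complex.abs_re_le_norm _)
  have b3 : ∀ S : Finset ι, ∑ i ∈ S, (ψ i).im ≤ ‖∑ i ∈ S, ψ i‖ := fun S => by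
    rw [← Complex.im_sum]
    exact (le_abs_self _).trans (Complex.abs_im_le_norm _)
  have b4 : ∀ S : Finset ι, ∑ i ∈ S, -(ψ i).im ≤ ‖∑ i ∈ S, ψ i‖ := fun S => by
    rw [sum_neg_distrib, ← Complex.im_sum]
    exact (neg_le_abs _).trans (Complex.abs_im_le_norm _)
  by_cases c1 : normSq ψ ≤ 4 * ∑ i, (max ((ψ i).re) 0) ^ 2
  · exact key ψ _ c1 b1
  by_cases c2 : normSq ψ ≤ 4 * ∑ i, (max (-(ψ i).re) 0) ^ 2
  · exact key ψ _ c2 b2
  by_cases c3 : normSq ψ ≤ 4 * ∑ i, (max ((ψ i).im) 0) ^ 2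
  · exact key ψ _ c3 b3
  by_cases c4 : normSq ψ ≤ 4 * ∑ i, (max (-(ψ i).im) 0) ^ 2
  · exact key ψ _ c4 b4
  exfalso
  push Not at c1 c2 c3 c4
  linarith

end Pool.Agent.W314.MW
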